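import Pool.Agent.H40.Zt10
import Pool.Agent.H40.JzDefs6

set_option autoImplicit false

namespace Pool.Agent.Results.MP_1929a6_lc.Neg

open Pool.Agent.H40.Bspt Pool.Agent.H40.Jz Pool.Agent.H40.Zt

variable {M : Type} {E : M → M → Prop}

theorem cyc (h : IsZF E) {A σ p q r : M} (a : IsPerm E A σ) (p1 : E p A) (q1 : E q A) (r1 : E r A)
    (n1 : p ≠ q) (n2 : p ≠ r) (n3 : q ≠ r) (b : ∀ x, E x A → (x = p ∨ x = q ∨ x = r ↔ ¬ App E σ x x)) : ∃ s : M → M,
      (∀ x y, E x A → E y A → (App E σ x y ↔ y = s x)) ∧ (∀ x, E x A → x = p ∨ x = q ∨ x = r ∨ s x = x) ∧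
        (s p = q ∧ s q = r ∧ s r = p ∨ s p = r ∧ s q = p ∧ s r = q) := by
  choose! s c d using a.2.1
  have e : ∀ x y, E x A → E y A → (App E σ x y ↔ y = s x) := fun x y i j =>
    ⟨fun k => d x i y ⟨j, k⟩, fun k => k ▸ (c x i).2⟩
  have f : ∀ x y, E x A → E y A → s x = s y → x = y := fun x y i j k =>
    (a.2.2 _ (c x i).1).elim fun _ l => (l.2 x ⟨i, (c x i).2⟩).trans (l.2 y ⟨j, k ▸ (c y j).2⟩).symm
  have g : ∀ x, E x A → x = p ∨ x = q ∨ x = r ∨ s x = x := fun x i => by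
    have := (b x i).2
    rw [e x x i i] at this
    by_cases j : x = s x
    exacts [Or.inr (Or.inr (Or.inr j.symm)), (this j).imp_right (Or.imp_right Or.inl)]
  have k : ∀ x, E x A → (x = p ∨ x = q ∨ x = r) → s x ≠ x ∧ (s x = p ∨ s x = q ∨ s x = r) :=
    fun x i j => have l : s x ≠ x := fun l => (b x i).1 j ((e x x i i).2 l.symm)
      ⟨l, (g _ (c x i).1).imp_right (Or.imp_right (·.resolve_right fun m => l (f _ _ (c x i).1 i m)))⟩
  refine ⟨s, e, g, ?_⟩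
  obtain ⟨u1, u2⟩ := k p p1 (Or.inl rfl)
  obtain ⟨v1, v2⟩ := k q q1 (Or.inr (Or.inl rfl))
  obtain ⟨w1, w2⟩ := k r r1 (Or.inr (Or.inr rfl))
  have f1 := mt (f p q p1 q1) n1
  have f2 := mt (f p r p1 r1) n2
  have f3 := mt (f q r q1 r1) n3
  clear a b c d e f g k
  grind

theorem result (M : Type) (E : M → M → Prop) (h : IsZF E) (A : M) (hA : ¬ IsFin E A) :
    ¬ ∃ φ : {P // FinPart E A P} → {σ // Cyc3 E A σ},
      Intl E (fun P => (φ P).1) ∧ Function.Injective φ := by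
  rintro ⟨φ, a, b⟩
  obtain ⟨f, c, d⟩ := intl_t h a
  have := @t1 _ E f c
  have e : ∀ Q, EQ E A Q → Cyc3 E A (f (part E A Q)) := fun Q i =>
    (d ⟨_, (part_sp h i).1⟩).symm ▸ (φ ⟨_, (part_sp h i).1⟩).2
  have g : ∀ Q, EQ E A Q → IsThree E A (st E A fun x => ¬ App E (f (part E A Q)) x x) := fun Q i => by
    obtain ⟨-, X, ⟨p, q, r, p1, q1, r1, n1, n2, n3, j⟩, k⟩ := e Q i
    refine ⟨p, q, r, p1, q1, r1, n1, n2, n3, fun z => (mem_st h).trans ⟨fun l => (j z).1 ((k z l.1).2 l.2),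
      fun l => ?_⟩⟩
    have m : E z A := by rcases l with rfl | rfl | rfl <;> assumption
    exact ⟨m, (k z m).1 ((j z).2 l)⟩
  refine hA (thm3 h _ g fun P Q R i j k l m => ?_)
  obtain ⟨p, q, r, p1, q1, r1, n1, n2, n3, n⟩ := g P i
  have o : ∀ Q, EQ E A Q → (st E A fun x => ¬ App E (f (part E A P)) x x) =
      (st E A fun x => ¬ App E (f (part E A Q)) x x) → _ := fun Q j l => cyc h (e Q j).1 p1 q1 r1 n1 n2 n3
    fun x s => (n x).symm.trans (l ▸ (mem_st h).trans (and_iff_right s))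
  have t : ∀ P Q (i : EQ E A P) (j : EQ E A Q) (s s' : M → M), (∀ x y, E x A → E y A →
      (App E (f (part E A P)) x y ↔ y = s x)) → (∀ x y, E x A → E y A → (App E (f (part E A Q)) x y ↔
        y = s' x)) → (∀ x, E x A → x = p ∨ x = q ∨ x = r ∨ s x = x) →
      (∀ x, E x A → x = p ∨ x = q ∨ x = r ∨ s' x = x) → s p = s' p ∧ s q = s' q ∧ s r = s' r → P = Q :=
    fun P Q i j s s' u v w y z => by
      have k : ∀ x, E x A → s x = s' x := fun x k => by
        rcases w x k with rfl | rfl | rfl | w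
        exacts [z.1, z.2.1, z.2.2, (y x k).elim (· ▸ z.1) (·.elim (· ▸ z.2.1) (·.elim (· ▸ z.2.2)
          (w.trans ·.symm)))]
      have l : ∀ {σ τ}, IsPerm E A σ → (∀ x y, E x A → E y A → App E σ x y → App E τ x y) →
          Sub E σ τ := fun l m z n => by
        obtain ⟨x, y, x1, y1, o⟩ := l.1 z n
        obtain ⟨_, u, v⟩ := m x y x1 y1 ⟨z, n, o⟩
        exact h.pair_uniq v o ▸ u
      have m : f (part E A P) = f (part E A Q) := h.ext _ _ fun z =>
        ⟨l (e P i).1 (fun x y m n o => (v x y m n).2 (k x m ▸ (u x y m n).1 o)) z,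
          l (e Q j).1 (fun x y m n o => (u x y m n).2 (k x m ▸ (v x y m n).1 o)) z⟩
      have n := congrArg Subtype.val (b (a₁ := ⟨_, (part_sp h i).1⟩) (a₂ := ⟨_, (part_sp h j).1⟩)
        (Subtype.ext ((d _).symm.trans (m.trans (d ⟨_, (part_sp h j).1⟩)))))
      exact rext h i.1 j.1 fun x y => by rw [(part_sp h i).2, (part_sp h j).2, show part E A P = _ from n]
  obtain ⟨s1, u1, v1, w1⟩ := o P i rfl
  obtain ⟨s2, u2, v2, w2⟩ := o Q j l
  obtain ⟨s3, u3, v3, w3⟩ := o R k m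
  have t1 := t P Q i j s1 s2 u1 u2 v1 v2
  have t2 := t P R i k s1 s3 u1 u3 v1 v3
  have t3 := t Q R j k s2 s3 u2 u3 v2 v3
  clear o t u1 u2 u3 v1 v2 v3 l m n e g a b c d
  grind

end Pool.Agent.Results.MP_1929a6_lc.Neg
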